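import Mathlib
import Pool.Agent.H45.CubeMain

set_option autoImplicit false

open Finset

namespace Pool.Agent.Results.MP_18fe88_co.ThreeCube

/-- `A ⊆ ZMod N` is `d`-cube-free: for every choice of `d` elements `s 0, ..., s (d - 1)`
(repetitions allowed), some sum over a nonempty index set lies outside `A`; that is, `A` contains
no projective `d`-cube. -/
def IsCubeFree {N : ℕ} (d : ℕ) (A : Finset (ZMod N)) : Prop :=
  ∀ s : Fin d → ZMod N, ∃ I : Finset (Fin d), I.Nonempty ∧ ∑ i ∈ I, s i ∉ A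

lemma free_of_isCubeFree {N : ℕ} {A : Finset (ZMod N)} (h : IsCubeFree 3 A) (a b c : ZMod N) :
    ¬ (a ∈ A ∧ b ∈ A ∧ c ∈ A ∧ a + b ∈ A ∧ a + c ∈ A ∧ b + c ∈ A ∧ a + b + c ∈ A) := by
  rintro ⟨h1, h2, h3, h4, h5, h6, h7⟩
  obtain ⟨I, hI, hIA⟩ := h ![a, b, c]
  apply hIA
  have hsum : ∑ i ∈ I, (![a, b, c] : Fin 3 → ZMod N) i =
      (if (0 : Fin 3) ∈ I then a else 0) + (if (1 : Fin 3) ∈ I then b else 0) +
        (if (2 : Fin 3) ∈ I then c else 0) := by
    have e : ∑ i ∈ I, (![a, b, c] : Fin 3 → ZMod N) i =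
        ∑ i : Fin 3, if i ∈ I then (![a, b, c] : Fin 3 → ZMod N) i else 0 := by
      rw [← Finset.sum_filter]
      congr 1
      ext i
      simp
    rw [e, Fin.sum_univ_three]
    rfl
  rw [hsum]
  by_cases i0 : (0 : Fin 3) ∈ I <;> by_cases i1 : (1 : Fin 3) ∈ I <;>
    by_cases i2 : (2 : Fin 3) ∈ I <;> simp only [i0, i1, i2, if_true, if_false, add_zero, zero_add]
  · exact h7
  · exact h4
  · exact h5
  · exact h1
  · exact h6
  · exact h2
  · exact h3
  · exfalso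
    obtain ⟨j, hj⟩ := hI
    fin_cases j
    · exact i0 hj
    · exact i1 hj
    · exact i2 hj

lemma isCubeFree_of_free {N : ℕ} {A : Finset (ZMod N)}
    (h : ∀ a b c : ZMod N, ¬ (a ∈ A ∧ b ∈ A ∧ c ∈ A ∧ a + b ∈ A ∧ a + c ∈ A ∧ b + c ∈ A ∧
      a + b + c ∈ A)) : IsCubeFree 3 A := by
  intro s
  by_contra hcon
  push Not at hcon
  apply h (s 0) (s 1) (s 2)
  refine ⟨?_, ?_, ?_, ?_, ?_, ?_, ?_⟩
  · simpa using hcon {0} (by simp)
  · simpa using hcon {1} (by simp)
  · simpa using hcon {2} (by simp)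
  · have := hcon {0, 1} (by simp)
    rwa [Finset.sum_pair (by decide)] at this
  · have := hcon {0, 2} (by simp)
    rwa [Finset.sum_pair (by decide)] at this
  · have := hcon {1, 2} (by simp)
    rwa [Finset.sum_pair (by decide)] at this
  · have := hcon Finset.univ (by simp)
    rwa [Fin.sum_univ_three] at this

/-! ### The extremal set -/

/-- The residues `1, 3, 4, 5, 7` modulo `8`. -/
def B : Finset (ZMod 8) := {1, 3, 4, 5, 7}

lemma B_free : ∀ a b c : ZMod 8, ¬ (a ∈ B ∧ b ∈ B ∧ c ∈ B ∧ a + b ∈ B ∧ a + c ∈ B ∧ b + c ∈ B ∧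
    a + b + c ∈ B) := by
  decide

lemma count_B (M : ℕ) : ∑ k ∈ range (8 * M), (if ((k : ℕ) : ZMod 8) ∈ B then 1 else 0) = 5 * M := by
  induction M with
  | zero => simp
  | succ M ih =>
    rw [Nat.mul_succ, Finset.sum_range_add, ih, Nat.mul_succ]
    congr 1
    have h : ∀ j : ℕ, ((8 * M + j : ℕ) : ZMod 8) = ((j : ℕ) : ZMod 8) := by
      intro j
      push_cast
      have : (8 : ZMod 8) = 0 := by decide
      rw [this, zero_mul, zero_add]
    simp only [h]
    decide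

/-- **The largest 3-cube-free subset of `ZMod (2 ^ n)` has exactly `(5 / 8) 2 ^ n` elements, for
every `n ≥ 3`.** -/
theorem result : ∀ n : ℕ, 3 ≤ n →
    IsGreatest {k : ℕ | ∃ A : Finset (ZMod (2 ^ n)), IsCubeFree 3 A ∧ A.card = k}
      (5 * 2 ^ (n - 3)) := by
  intro n hn
  obtain ⟨m, rfl⟩ := Nat.exists_eq_add_of_le hn
  have hm : 2 ^ (3 + m) = 8 * 2 ^ m := by
    rw [pow_add]
    norm_num
  constructor
  · -- the lower bound
    have hdvd : 8 ∣ 2 ^ (3 + m) := ⟨2 ^ m, hm⟩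
    have : NeZero (2 ^ (3 + m)) := ⟨by positivity⟩
    refine ⟨Finset.univ.filter (fun z : ZMod (2 ^ (3 + m)) => ZMod.castHom hdvd (ZMod 8) z ∈ B),
      ?_, ?_⟩
    · apply isCubeFree_of_free
      intro a b c h
      simp only [Finset.mem_filter, Finset.mem_univ, true_and, map_add] at h
      exact B_free _ _ _ h
    · rw [Finset.card_filter, H45.CubeMain.sum_zmod]
      simp only [map_natCast]
      rw [hm, count_B, Nat.add_sub_cancel_left]
  · -- the upper bound
    rintro k ⟨A, hA, rfl⟩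
    have hfree := free_of_isCubeFree hA
    have e : 3 + m = (2 + m) + 1 := by omega
    have key : ∀ (N : ℕ) (_ : N = (2 + m) + 1) (A : Finset (ZMod (2 ^ N))),
        (∀ a b c : ZMod (2 ^ N), ¬ (a ∈ A ∧ b ∈ A ∧ c ∈ A ∧ a + b ∈ A ∧ a + c ∈ A ∧ b + c ∈ A ∧
          a + b + c ∈ A)) → 4 * A.card ≤ 5 * 2 ^ (2 + m) := by
      rintro N rfl A hA
      exact H45.CubeMain.card_le A hA
    have h1 := key (3 + m) e A hfree
    have h2 : 2 ^ (2 + m) = 4 * 2 ^ m := by
      rw [pow_add]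
      norm_num
    rw [Nat.add_sub_cancel_left]
    omega

end Pool.Agent.Results.MP_18fe88_co.ThreeCube
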